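import Pool.Agent.Helper81.XP.StB

/-! Integral elements of the algebraic closure of `k(t)` fixed by the Galois group. -/

set_option autoImplicit false

namespace Pool.Agent.Helper35.XP

open Pool.Agent.Helper81.XP

theorem int_main (k : Type) [Field k] (a : Om k) (hi : IsIntegral (Polynomial k) a)
    (hfix : ∀ σ : Om k ≃ₐ[RatFunc k] Om k, σ a = a) :
    ∃ m : ℕ, 1 ≤ m ∧ (∃ q : Polynomial k, a ^ m = algebraMap (Polynomial k) (Om k) q) ∧
      (IsSeparable (RatFunc k) a → m = 1) := by
  classical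
  have hiF : IsIntegral (RatFunc k) a := hi.tower_top
  obtain ⟨m, hm⟩ : ∃ m, m = Multiset.card ((minpoly (RatFunc k) a).aroots (Om k)) := ⟨_, rfl⟩
  have hroot : ∀ b ∈ (minpoly (RatFunc k) a).aroots (Om k), b = a := by
    intro b hb
    have h1 : IsConjRoot (RatFunc k) a b := (isConjRoot_iff_mem_minpoly_aroots hiF).mpr hb
    obtain ⟨σ, hσ⟩ := isConjRoot_iff_exists_algEquiv.mp h1.symm
    rw [← hσ]
    exact hfix σ
  have hrep : (minpoly (RatFunc k) a).aroots (Om k) = Multiset.replicate m a :=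
    Multiset.eq_replicate.mpr ⟨hm.symm, hroot⟩
  have hmem : a ∈ (minpoly (RatFunc k) a).aroots (Om k) :=
    (isConjRoot_iff_mem_minpoly_aroots hiF).mp (IsConjRoot.refl)
  have hm1 : 1 ≤ m := by
    rw [hm]
    exact Multiset.card_pos_iff_exists_mem.mpr ⟨a, hmem⟩
  have hsp : ((minpoly (RatFunc k) a).map (algebraMap (RatFunc k) (Om k))).Splits :=
    IsAlgClosed.splits _
  have he := Polynomial.Splits.aeval_eq_prod_aroots_of_monic hsp (minpoly.monic hiF) (0 : Om k)
  rw [hrep, Multiset.map_replicate, Multiset.prod_replicate, zero_sub,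
    ← Polynomial.coeff_zero_eq_aeval_zero'] at he
  refine ⟨m, hm1, ?_, ?_⟩
  · -- the power
    have h1 : a ^ m = algebraMap (RatFunc k) (Om k)
        ((-1) ^ m * (minpoly (RatFunc k) a).coeff 0) := by
      rw [map_mul, he, map_pow, map_neg, map_one, neg_pow a m, ← mul_assoc, ← pow_add,
        ← two_mul, pow_mul, neg_one_sq, one_pow, one_mul]
    have h2 : IsIntegral (Polynomial k) (a ^ m) := hi.pow m
    rw [h1, isIntegral_algebraMap_iff (algebraMap (RatFunc k) (Om k)).injective] at h2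
    obtain ⟨q, hq⟩ := IsIntegrallyClosed.isIntegral_iff.mp h2
    refine ⟨q, ?_⟩
    rw [h1, ← hq, ← IsScalarTower.algebraMap_apply]
  · intro hsep
    have h1 : ((minpoly (RatFunc k) a).aroots (Om k)).Nodup :=
      Polynomial.nodup_roots (Polynomial.Separable.map hsep)
    rw [hrep] at h1
    have h2 := Multiset.nodup_iff_count_le_one.mp h1 a
    rw [Multiset.count_replicate_self] at h2
    omega

theorem st_INT : ST_INT := by
  intro k _ a hi hfix
  obtain ⟨m, hm, hq, hs⟩ := int_main k a hi hfix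
  refine ⟨⟨m, hm, hq⟩, fun hsep => ?_⟩
  obtain ⟨q, hq⟩ := hq
  refine ⟨q, ?_⟩
  rw [← hq, hs hsep, pow_one]

end Pool.Agent.Helper35.XP
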